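import Pool.Agent.E8helper11.GS.Stm

/-!
# GS, piece PR: primes in the block `[4^k, 4^(k+1))`
-/

set_option autoImplicit false

open Filter Topology
open scoped Classical

namespace Pool.Agent.E8helper73.GS

open Pool.Agent.E8helper11.GS

lemma pow_four_ge (k : ℕ) (hk : 7 ≤ k) : 9 * (k + 1) ≤ 2 ^ k := by
  induction k, hk using Nat.le_induction with
  | base => norm_num
  | succ k hk ih =>
    rw [pow_succ]
    omega

lemma not_prime_pow (k : ℕ) : ¬ Nat.Prime (4 ^ (k + 1)) := by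
  intro h
  have h4 : 2 * 2 ∣ 4 ^ (k + 1) := by
    rw [pow_succ]
    exact Dvd.intro_left _ rfl
  have h2 : 2 ∣ 4 ^ (k + 1) := (Dvd.intro _ rfl : 2 ∣ 2 * 2).trans h4
  have h3 := (Nat.prime_dvd_prime_iff_eq Nat.prime_two h).1 h2
  rw [← h3] at h4
  exact absurd (Nat.le_of_dvd (by norm_num) h4) (by norm_num)

/-- **PR** -/
theorem t_PR : S_PR := by
  refine ⟨7, fun k hk => ?_⟩
  have hl4 : 0 < Real.log 4 := Real.log_pos (by norm_num)
  have hl2 : Real.log 4 = 2 * Real.log 2 := by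
    rw [show (4 : ℝ) = 2 ^ 2 by norm_num, Real.log_pow]
    push_cast
    ring
  -- the sums
  have hth : ∀ n : ℕ, Chebyshev.theta (n : ℝ) =
      ∑ p ∈ (Finset.Ioc 0 n).filter Nat.Prime, Real.log p := by
    intro n
    unfold Chebyshev.theta
    rw [Nat.floor_natCast]
  have hup : Chebyshev.theta ((4 ^ (k + 1) : ℕ) : ℝ) ≤
      Chebyshev.theta ((4 ^ k : ℕ) : ℝ) + ((Cb k).card : ℝ) * (((k : ℝ) + 1) * Real.log 4) := by
    rw [hth, hth]
    have hsub : (Finset.Ioc 0 (4 ^ (k + 1))).filter Nat.Prime ⊆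
        (Finset.Ioc 0 (4 ^ k)).filter Nat.Prime ∪ Cb k := by
      intro p hp
      rw [Finset.mem_filter, Finset.mem_Ioc] at hp
      obtain ⟨⟨hp0, hp1⟩, hpp⟩ := hp
      rw [Finset.mem_union]
      rcases le_or_gt p (4 ^ k) with h | h
      · left
        rw [Finset.mem_filter, Finset.mem_Ioc]
        exact ⟨⟨hp0, h⟩, hpp⟩
      · right
        unfold Cb
        rw [Finset.mem_filter, Finset.mem_Ico]
        refine ⟨⟨h.le, lt_of_le_of_ne hp1 ?_⟩, hpp⟩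
        intro he
        exact not_prime_pow k (he ▸ hpp)
    have hnn : ∀ p : ℕ, 0 ≤ Real.log (p : ℝ) := fun p => Real.log_natCast_nonneg p
    calc ∑ p ∈ (Finset.Ioc 0 (4 ^ (k + 1))).filter Nat.Prime, Real.log (p : ℝ)
        ≤ ∑ p ∈ (Finset.Ioc 0 (4 ^ k)).filter Nat.Prime ∪ Cb k, Real.log (p : ℝ) :=
          Finset.sum_le_sum_of_subset_of_nonneg hsub fun p _ _ => hnn p
      _ ≤ ∑ p ∈ (Finset.Ioc 0 (4 ^ k)).filter Nat.Prime, Real.log (p : ℝ) +
          ∑ p ∈ Cb k, Real.log (p : ℝ) := by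
          rw [← Finset.sum_union_inter]
          have : 0 ≤ ∑ p ∈ (Finset.Ioc 0 (4 ^ k)).filter Nat.Prime ∩ Cb k, Real.log (p : ℝ) :=
            Finset.sum_nonneg fun p _ => hnn p
          linarith
      _ ≤ ∑ p ∈ (Finset.Ioc 0 (4 ^ k)).filter Nat.Prime, Real.log (p : ℝ) +
          ((Cb k).card : ℝ) * (((k : ℝ) + 1) * Real.log 4) := by
          have : ∑ p ∈ Cb k, Real.log (p : ℝ) ≤ ∑ _p ∈ Cb k, (((k : ℝ) + 1) * Real.log 4) := by
            refine Finset.sum_le_sum fun p hp => ?_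
            unfold Cb at hp
            rw [Finset.mem_filter, Finset.mem_Ico] at hp
            have h1 : (p : ℝ) ≤ 4 ^ (k + 1) := by exact_mod_cast hp.1.2.le
            have h0 : (0 : ℝ) < p := by exact_mod_cast hp.2.pos
            have h2 := Real.log_le_log h0 h1
            rw [Real.log_pow] at h2
            push_cast at h2
            exact h2
          rw [Finset.sum_const, nsmul_eq_mul] at this
          linarith
  have hlow := Chebyshev.theta_ge (4 ^ (k + 1))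
  have hupp := Chebyshev.theta_le_log4_mul_x (x := ((4 ^ k : ℕ) : ℝ)) (Nat.cast_nonneg _)
  have hsqrt : Real.sqrt ((4 ^ (k + 1) : ℕ) : ℝ) = 2 ^ (k + 1) := by
    have : ((4 ^ (k + 1) : ℕ) : ℝ) = ((2 : ℝ) ^ (k + 1)) ^ 2 := by
      push_cast
      rw [← pow_mul, mul_comm, pow_mul]
      norm_num
    rw [this, Real.sqrt_sq (by positivity)]
  have hlog : Real.log ((4 ^ (k + 1) : ℕ) : ℝ) = ((k : ℝ) + 1) * Real.log 4 := by
    push_cast
    rw [Real.log_pow]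
    push_cast
    ring
  have hlog1 : Real.log (((4 ^ (k + 1) : ℕ) : ℝ) + 1) ≤ ((k : ℝ) + 2) * Real.log 4 := by
    have h1 : ((4 ^ (k + 1) : ℕ) : ℝ) + 1 ≤ 4 ^ (k + 2) := by
      push_cast
      have : (1 : ℝ) ≤ 4 ^ (k + 1) := one_le_pow₀ (by norm_num)
      rw [pow_succ (4 : ℝ) (k + 1)]
      linarith
    have h2 := Real.log_le_log (by positivity) h1
    have e : ((k + 2 : ℕ) : ℝ) = (k : ℝ) + 2 := by push_cast; ring
    rw [Real.log_pow, e] at h2
    exact h2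
  rw [hsqrt, hlog] at hlow
  -- combine
  set c : ℝ := ((Cb k).card : ℝ) with hc
  set L : ℝ := Real.log 4 with hL
  have hl2' : Real.log 2 = L / 2 := by linarith
  rw [hl2'] at hlow
  have e4 : ((4 ^ (k + 1) : ℕ) : ℝ) = 4 * 4 ^ k := by push_cast; ring
  have e4' : ((4 ^ k : ℕ) : ℝ) = 4 ^ k := by push_cast; ring
  rw [e4'] at hupp
  have hlow' : (4 * (4 : ℝ) ^ k) * (L / 2) - ((k : ℝ) + 2) * L -
      2 * 2 ^ (k + 1) * (((k : ℝ) + 1) * L) ≤ Chebyshev.theta ((4 ^ (k + 1) : ℕ) : ℝ) := by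
    rw [← e4]
    linarith
  have hmain : L * ((4 : ℝ) ^ k - ((k : ℝ) + 2) - 4 * 2 ^ k * ((k : ℝ) + 1)) ≤
      L * (c * ((k : ℝ) + 1)) := by
    rw [e4'] at hup
    have : (2 : ℝ) * 2 ^ (k + 1) = 4 * 2 ^ k := by rw [pow_succ]; ring
    rw [this] at hlow'
    linarith
  have hmain' : (4 : ℝ) ^ k - ((k : ℝ) + 2) - 4 * 2 ^ k * ((k : ℝ) + 1) ≤ c * ((k : ℝ) + 1) :=
    le_of_mul_le_mul_left hmain hl4
  have hk9 : 9 * ((k : ℝ) + 1) ≤ 2 ^ k := by exact_mod_cast pow_four_ge k hk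
  have hk7 : (7 : ℝ) ≤ k := by exact_mod_cast hk
  have hsq : (4 : ℝ) ^ k = 2 ^ k * 2 ^ k := by
    rw [← mul_pow]; norm_num
  have h2k : (0 : ℝ) < 2 ^ k := by positivity
  have h9 : (2 : ℝ) ^ k * (9 * ((k : ℝ) + 1)) ≤ 2 ^ k * 2 ^ k :=
    mul_le_mul_of_nonneg_left hk9 h2k.le
  have h10 : (9 * 8 : ℝ) * ((k : ℝ) + 1) ≤ 2 ^ k * ((k : ℝ) + 1) :=
    mul_le_mul_of_nonneg_right (by linarith) (by linarith)
  rw [hsq] at hmain' ⊢
  nlinarith

end Pool.Agent.E8helper73.GS
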